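import Pool.Agent.H72.UZ.TarZ
import Pool.Agent.H41.UZ.TN

/-! # MP_f6fd33_lc, module Q1a: the towers, their order and richness are sets of the ground model -/

set_option linter.unusedVariables false

open Ordinal Order Set
open scoped ZFSet

namespace SE.UZ

open SF _root_.UZ

namespace H91c

variable {N : V → Prop}

theorem tn_kd (hN : ZFm N) {F : (ℕ → V) → V} (hF : TN N F) : TN N (fun u => kd (F u)) :=
  TN.fst hN (TN.fst hN (TN.snd hN hF))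

theorem tn_tm (hN : ZFm N) {F : (ℕ → V) → V} (hF : TN N F) : TN N (fun u => tm (F u)) :=
  TN.fst hN (TN.snd hN (TN.snd hN (TN.fst hN (TN.snd hN hF))))

theorem tn_u (hN : ZFm N) {b : BS} (hU : N b.U) {F : (ℕ → V) → V} (hF : TN N F) :
    TN N (fun u => b.u (F u)) :=
  TN.app hN (TN.cst hU) hF

theorem tn_tK (hN : ZFm N) {F G : (ℕ → V) → V} (hF : TN N F) (hG : TN N G) :
    TN N (fun u => tK (F u) (G u)) :=
  TN.fst hN (TN.app hN hF hG)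

theorem tn_ut (hN : ZFm N) {b : BS} (hU : N b.U) {κ : V} (hκ : N κ) {F : (ℕ → V) → V}
    (hF : TN N F) : TN N (fun u => b.ut κ (F u)) := by
  have h1 : TN N (fun u => b.ut κ (u 0)) :=
    TN.iUn hN (F := fun _ => κ) (G := fun u => b.u (tK (u 1) (u 0))) (TN.cst hκ)
      (tn_u hN hU (tn_tK hN (TN.var hN 1) (TN.var hN 0)))
  exact TN.at1 hN h1 hF

/-- the conditions for towers -/
def PT (b : BS) (κ A SW SL S1 S2 T : V) : Prop := T = resS κ (app T) ∧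
  (∀ ξ ∈ κ, app T ξ ∈ A) ∧
  (∀ ξ ∈ κ, ZFSet.pair ξ (ZFSet.pair (app T ξ) (app T ξ)) ∈ SW) ∧
  (∀ ξ ∈ κ, ∀ j ∈ b.u (tK T ξ), kd j = nS b.l → tm j ∈ ξ) ∧
  (∀ ξ ∈ κ, ∀ η ∈ κ, ξ ∈ η → ZFSet.pair ξ (ZFSet.pair (app T ξ) (app T η)) ∈ SL) ∧
  (∀ ξ ∈ κ, ∀ ζ ∈ κ, ∀ η ∈ κ, ξ ⊆ ζ → ζ ∈ η →
    ZFSet.pair ζ (ZFSet.pair (app T ξ) (app T η)) ∈ S1) ∧
  ∀ ξ ∈ κ, ZFSet.pair ξ (ZFSet.pair (app T ξ) (app T (insert ξ ξ))) ∈ S2

theorem dn_PT (hN : ZFm N) {b : BS} (hU : N b.U) {κ A SW SL S1 S2 : V} (hκ : N κ) (hA : N A)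
    (hW : N SW) (hL : N SL) (h1 : N S1) (h2 : N S2) :
    DN N (fun u => PT b κ A SW SL S1 S2 (u 0)) := by
  have a0 : DN N (fun u => u 0 = resS κ (app (u 0))) :=
    DN.eq hN (TN.var hN 0) (TN.resS hN (F := fun _ => κ) (G := fun u => app (u 1) (u 0))
      (TN.cst hκ) (TN.app hN (TN.var hN 1) (TN.var hN 0)))
  have tT : TN N (fun u => app (u 1) (u 0)) := TN.app hN (TN.var hN 1) (TN.var hN 0)
  have a1 : DN N (fun u => ∀ ξ ∈ κ, app (u 0) ξ ∈ A) :=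
    DN.ball hN (F := fun _ => κ) (S := fun u => app (u 1) (u 0) ∈ A) (TN.cst hκ)
      (DN.mem hN tT (TN.cst hA))
  have a2 : DN N (fun u => ∀ ξ ∈ κ, ZFSet.pair ξ (ZFSet.pair (app (u 0) ξ) (app (u 0) ξ)) ∈ SW) :=
    DN.ball hN (F := fun _ => κ)
      (S := fun u => ZFSet.pair (u 0) (ZFSet.pair (app (u 1) (u 0)) (app (u 1) (u 0))) ∈ SW)
      (TN.cst hκ) (DN.mem hN (TN.pair hN (TN.var hN 0) (TN.pair hN tT tT)) (TN.cst hW))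
  have a3 : DN N (fun u => ∀ ξ ∈ κ, ∀ j ∈ b.u (tK (u 0) ξ), kd j = nS b.l → tm j ∈ ξ) :=
    DN.ball hN (F := fun _ => κ)
      (S := fun u => ∀ j ∈ b.u (tK (u 1) (u 0)), kd j = nS b.l → tm j ∈ u 0) (TN.cst hκ)
      (DN.ball hN (F := fun u => b.u (tK (u 1) (u 0)))
        (S := fun u => kd (u 0) = nS b.l → tm (u 0) ∈ u 1)
        (tn_u hN hU (tn_tK hN (TN.var hN 1) (TN.var hN 0)))
        (DN.imp hN (DN.eq hN (tn_kd hN (TN.var hN 0)) (TN.nS hN b.l))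
          (DN.mem hN (tn_tm hN (TN.var hN 0)) (TN.var hN 1))))
  have a4 : DN N (fun u => ∀ ξ ∈ κ, ∀ η ∈ κ, ξ ∈ η →
      ZFSet.pair ξ (ZFSet.pair (app (u 0) ξ) (app (u 0) η)) ∈ SL) :=
    DN.ball hN (F := fun _ => κ)
      (S := fun u => ∀ η ∈ κ, u 0 ∈ η →
        ZFSet.pair (u 0) (ZFSet.pair (app (u 1) (u 0)) (app (u 1) η)) ∈ SL) (TN.cst hκ)
      (DN.ball hN (F := fun _ => κ)
        (S := fun u => u 1 ∈ u 0 →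
          ZFSet.pair (u 1) (ZFSet.pair (app (u 2) (u 1)) (app (u 2) (u 0))) ∈ SL) (TN.cst hκ)
        (DN.imp hN (DN.mem hN (TN.var hN 1) (TN.var hN 0))
          (DN.mem hN (TN.pair hN (TN.var hN 1) (TN.pair hN
            (TN.app hN (TN.var hN 2) (TN.var hN 1))
            (TN.app hN (TN.var hN 2) (TN.var hN 0)))) (TN.cst hL))))
  have a5 : DN N (fun u => ∀ ξ ∈ κ, ∀ ζ ∈ κ, ∀ η ∈ κ, ξ ⊆ ζ → ζ ∈ η →
      ZFSet.pair ζ (ZFSet.pair (app (u 0) ξ) (app (u 0) η)) ∈ S1) :=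
    DN.ball hN (F := fun _ => κ)
      (S := fun u => ∀ ζ ∈ κ, ∀ η ∈ κ, u 0 ⊆ ζ → ζ ∈ η →
        ZFSet.pair ζ (ZFSet.pair (app (u 1) (u 0)) (app (u 1) η)) ∈ S1) (TN.cst hκ)
      (DN.ball hN (F := fun _ => κ)
        (S := fun u => ∀ η ∈ κ, u 1 ⊆ u 0 → u 0 ∈ η →
          ZFSet.pair (u 0) (ZFSet.pair (app (u 2) (u 1)) (app (u 2) η)) ∈ S1) (TN.cst hκ)
        (DN.ball hN (F := fun _ => κ)
          (S := fun u => u 2 ⊆ u 1 → u 1 ∈ u 0 →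
            ZFSet.pair (u 1) (ZFSet.pair (app (u 3) (u 2)) (app (u 3) (u 0))) ∈ S1) (TN.cst hκ)
          (DN.imp hN (DN.subset hN (TN.var hN 2) (TN.var hN 1))
            (DN.imp hN (DN.mem hN (TN.var hN 1) (TN.var hN 0))
              (DN.mem hN (TN.pair hN (TN.var hN 1) (TN.pair hN
                (TN.app hN (TN.var hN 3) (TN.var hN 2))
                (TN.app hN (TN.var hN 3) (TN.var hN 0)))) (TN.cst h1))))))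
  have a6 : DN N (fun u => ∀ ξ ∈ κ,
      ZFSet.pair ξ (ZFSet.pair (app (u 0) ξ) (app (u 0) (insert ξ ξ))) ∈ S2) :=
    DN.ball hN (F := fun _ => κ)
      (S := fun u => ZFSet.pair (u 0) (ZFSet.pair (app (u 1) (u 0))
        (app (u 1) (insert (u 0) (u 0)))) ∈ S2) (TN.cst hκ)
      (DN.mem hN (TN.pair hN (TN.var hN 0) (TN.pair hN tT
        (TN.app hN (TN.var hN 1) (TN.ins hN (TN.var hN 0) (TN.var hN 0))))) (TN.cst h2))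
  exact a0.and hN (a1.and hN (a2.and hN (a3.and hN (a4.and hN (a5.and hN a6)))))

/-- the conditions for the order -/
def PL (b : BS) (κ SL C T : V) : Prop :=
  (∀ ξ ∈ κ, b.u (tK C ξ) = b.u (tK T ξ) ∩ b.ut κ C) ∧
  ∀ ξ ∈ κ, ZFSet.pair ξ (ZFSet.pair (app C ξ) (app T ξ)) ∈ SL

theorem dn_PL (hN : ZFm N) {b : BS} (hU : N b.U) {κ SL : V} (hκ : N κ) (hL : N SL) :
    DN N (fun u => PL b κ SL (fst (u 0)) (snd (u 0))) := by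
  have f1 : TN N (fun u => fst (u 1)) := TN.fst hN (TN.var hN 1)
  have s1 : TN N (fun u => snd (u 1)) := TN.snd hN (TN.var hN 1)
  have a1 : DN N (fun u => ∀ ξ ∈ κ, b.u (tK (fst (u 0)) ξ) =
      b.u (tK (snd (u 0)) ξ) ∩ b.ut κ (fst (u 0))) :=
    DN.ball hN (F := fun _ => κ) (S := fun u => b.u (tK (fst (u 1)) (u 0)) =
      b.u (tK (snd (u 1)) (u 0)) ∩ b.ut κ (fst (u 1))) (TN.cst hκ)
      (DN.eq hN (tn_u hN hU (tn_tK hN f1 (TN.var hN 0)))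
        (TN.inter hN (tn_u hN hU (tn_tK hN s1 (TN.var hN 0))) (tn_ut hN hU hκ f1)))
  have a2 : DN N (fun u => ∀ ξ ∈ κ,
      ZFSet.pair ξ (ZFSet.pair (app (fst (u 0)) ξ) (app (snd (u 0)) ξ)) ∈ SL) :=
    DN.ball hN (F := fun _ => κ) (S := fun u => ZFSet.pair (u 0)
      (ZFSet.pair (app (fst (u 1)) (u 0)) (app (snd (u 1)) (u 0))) ∈ SL) (TN.cst hκ)
      (DN.mem hN (TN.pair hN (TN.var hN 0) (TN.pair hN (TN.app hN f1 (TN.var hN 0))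
        (TN.app hN s1 (TN.var hN 0)))) (TN.cst hL))
  exact a1.and hN a2

/-- the conditions for rich towers -/
def PR (b : BS) (κ S3 S4 T : V) : Prop :=
  (∀ ξ ∈ κ, ZFSet.pair (tK T ξ) (tK T (insert ξ ξ)) ∈ b.Rc) ∧
  (∀ ξ ∈ κ, ZFSet.pair ξ (ZFSet.pair (app T ξ) (app T (insert ξ ξ))) ∈ S3) ∧
  ∀ ξ ∈ κ, ZFSet.pair ξ (ZFSet.pair (app T ξ) (app T (insert ξ ξ))) ∈ S4

theorem dn_PR (hN : ZFm N) {b : BS} (hR : N b.Rc) {κ S3 S4 : V} (hκ : N κ) (h3 : N S3)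
    (h4 : N S4) : DN N (fun u => PR b κ S3 S4 (snd (u 0))) := by
  have s1 : TN N (fun u => snd (u 1)) := TN.snd hN (TN.var hN 1)
  have i0 : TN N (fun u => insert (u 0) (u 0)) := TN.ins hN (TN.var hN 0) (TN.var hN 0)
  have p0 : TN N (fun u => ZFSet.pair (u 0)
      (ZFSet.pair (app (snd (u 1)) (u 0)) (app (snd (u 1)) (insert (u 0) (u 0))))) :=
    TN.pair hN (TN.var hN 0) (TN.pair hN (TN.app hN s1 (TN.var hN 0)) (TN.app hN s1 i0))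
  have a1 : DN N (fun u => ∀ ξ ∈ κ,
      ZFSet.pair (tK (snd (u 0)) ξ) (tK (snd (u 0)) (insert ξ ξ)) ∈ b.Rc) :=
    DN.ball hN (F := fun _ => κ) (S := fun u => ZFSet.pair (tK (snd (u 1)) (u 0))
      (tK (snd (u 1)) (insert (u 0) (u 0))) ∈ b.Rc) (TN.cst hκ)
      (DN.mem hN (TN.pair hN (tn_tK hN s1 (TN.var hN 0)) (tn_tK hN s1 i0)) (TN.cst hR))
  have a2 : DN N (fun u => ∀ ξ ∈ κ, ZFSet.pair ξ
      (ZFSet.pair (app (snd (u 0)) ξ) (app (snd (u 0)) (insert ξ ξ))) ∈ S3) :=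
    DN.ball hN (F := fun _ => κ) (S := fun u => ZFSet.pair (u 0)
      (ZFSet.pair (app (snd (u 1)) (u 0)) (app (snd (u 1)) (insert (u 0) (u 0)))) ∈ S3)
      (TN.cst hκ) (DN.mem hN p0 (TN.cst h3))
  have a3 : DN N (fun u => ∀ ξ ∈ κ, ZFSet.pair ξ
      (ZFSet.pair (app (snd (u 0)) ξ) (app (snd (u 0)) (insert ξ ξ))) ∈ S4) :=
    DN.ball hN (F := fun _ => κ) (S := fun u => ZFSet.pair (u 0)
      (ZFSet.pair (app (snd (u 1)) (u 0)) (app (snd (u 1)) (insert (u 0) (u 0)))) ∈ S4)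
      (TN.cst hκ) (DN.mem hN p0 (TN.cst h4))
  exact a1.and hN (a2.and hN a3)

end H91c

open H91c in
theorem pf_Q1a (hNT : T_NT) : T_Q1a := by
  intro D κ b hAm hb
  have hD := hAm.ok
  have hN : ZFm D.N := hD.zfc.toZFCm.toZFm
  have hHN : ∀ x ∈ D.H, D.N x := fun x hx => hN.trans _ hD.hN x hx
  have hκ : D.N κ := hHN κ hAm.kH
  obtain ⟨A, hA, hAmem, ⟨SW, nW, eW⟩, ⟨SL, nL, eL⟩, ⟨S1, n1, e1⟩, ⟨S2, n2, e2⟩, ⟨S3, n3, e3⟩,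
    ⟨S4, n4, e4⟩⟩ := hNT D κ b hAm hb
  have hκA : D.N (ZFSet.prod κ A) :=
    TN.mem hN (TN.prod hN (TN.cst hκ) (TN.cst hA)) (u := fun _ => κ) fun _ => hκ
  obtain ⟨P, hP, hP2⟩ := hD.zfc.pow _ hκA
  have hPT := dn_PT hN hb.nU hκ hA nW nL n1 n2
  let X : V := P.sep fun T => PT b κ A SW SL S1 S2 T
  have hX : D.N X := DN.sepN hN hPT hP (u := fun _ => κ) fun _ => hκ
  have hXmem : ∀ T, T ∈ X ↔ b.Tw D κ T := by
    intro T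
    rw [ZFSet.mem_sep]
    constructor
    · rintro ⟨hT, t0, t1, t2, t3, t4, t5, t6⟩
      exact ⟨hN.trans _ hP T hT, t0, fun ξ hξ => (eW ξ hξ _ (t1 ξ hξ) _ (t1 ξ hξ)).1 (t2 ξ hξ),
        fun ξ hξ j hj hc => t3 ξ hξ j hj hc,
        fun ξ hξ η hη h => (eL ξ hξ _ (t1 ξ hξ) _ (t1 η hη)).1 (t4 ξ hξ η hη h),
        fun ξ hξ ζ hζ η hη h h' => (e1 ζ hζ _ (t1 ξ hξ) _ (t1 η hη)).1 (t5 ξ hξ ζ hζ η hη h h'),
        fun ξ hξ => (e2 ξ hξ _ (t1 ξ hξ) _ (t1 _ (hAm.suc ξ hξ))).1 (t6 ξ hξ)⟩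
    · intro hT
      have t1 : ∀ ξ ∈ κ, app T ξ ∈ A := fun ξ hξ => (hAmem _).2 ⟨ξ, hξ, hT.w ξ hξ⟩
      refine ⟨hP2 T hT.n ?_, hT.f, t1,
        fun ξ hξ => (eW ξ hξ _ (t1 ξ hξ) _ (t1 ξ hξ)).2 (hT.w ξ hξ),
        fun ξ hξ j hj hc => hT.tm ξ hξ j hj hc,
        fun ξ hξ η hη h => (eL ξ hξ _ (t1 ξ hξ) _ (t1 η hη)).2 (hT.t0 ξ hξ η hη h),
        fun ξ hξ ζ hζ η hη h h' =>
          (e1 ζ hζ _ (t1 ξ hξ) _ (t1 η hη)).2 (hT.t1 ξ hξ ζ hζ η hη h h'),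
        fun ξ hξ => (e2 ξ hξ _ (t1 ξ hξ) _ (t1 _ (hAm.suc ξ hξ))).2 (hT.t2 ξ hξ)⟩
      intro z hz
      rw [hT.f] at hz
      obtain ⟨ξ, hξ, rfl⟩ := mem_resS.1 hz
      exact ZFSet.pair_mem_prod.2 ⟨hξ, t1 ξ hξ⟩
  have hAT : ∀ T, b.Tw D κ T → ∀ ξ ∈ κ, app T ξ ∈ A :=
    fun T hT ξ hξ => (hAmem _).2 ⟨ξ, hξ, hT.w ξ hξ⟩
  have hXX : D.N (ZFSet.prod X X) :=
    TN.mem hN (TN.prod hN (TN.cst hX) (TN.cst hX)) (u := fun _ => κ) fun _ => hκ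
  let Y : V := (ZFSet.prod X X).sep fun z => PL b κ SL (fst z) (snd z)
  have hY : D.N Y := DN.sepN hN (dn_PL hN hb.nU hκ nL) hXX (u := fun _ => κ) fun _ => hκ
  have hYmem : ∀ z, z ∈ Y ↔ ∃ C T, b.TLe D κ C T ∧ z = ZFSet.pair C T := by
    intro z
    rw [ZFSet.mem_sep, ZFSet.mem_prod]
    constructor
    · rintro ⟨⟨C, hC, T, hT, rfl⟩, h1, h2⟩
      rw [fst_pair, snd_pair] at h1 h2
      rw [hXmem] at hC hT
      exact ⟨C, T, ⟨hC, hT, h1, fun ξ hξ =>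
        (eL ξ hξ _ (hAT C hC ξ hξ) _ (hAT T hT ξ hξ)).1 (h2 ξ hξ)⟩, rfl⟩
    · rintro ⟨C, T, h, rfl⟩
      refine ⟨⟨C, (hXmem C).2 h.t, T, (hXmem T).2 h.t', rfl⟩, ?_, ?_⟩
      · rw [fst_pair, snd_pair]
        exact h.u
      · rw [fst_pair, snd_pair]
        exact fun ξ hξ => (eL ξ hξ _ (hAT C h.t ξ hξ) _ (hAT T h.t' ξ hξ)).2 (h.le ξ hξ)
  let Z : V := Y.sep fun z => PR b κ S3 S4 (snd z)
  have hZ : D.N Z := DN.sepN hN (dn_PR hN hb.nR hκ n3 n4) hY (u := fun _ => κ) fun _ => hκ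
  have hZmem : ∀ z, z ∈ Z ↔ ∃ C T, b.TLe D κ C T ∧ b.Rt D κ T ∧ z = ZFSet.pair C T := by
    intro z
    rw [ZFSet.mem_sep, hYmem]
    constructor
    · rintro ⟨⟨C, T, h, rfl⟩, h1, h2, h3⟩
      rw [snd_pair] at h1 h2 h3
      exact ⟨C, T, h, ⟨h.t', h1, fun ξ hξ => (e3 ξ hξ _ (hAT T h.t' ξ hξ) _
        (hAT T h.t' _ (hAm.suc ξ hξ))).1 (h2 ξ hξ), fun ξ hξ => (e4 ξ hξ _ (hAT T h.t' ξ hξ) _
        (hAT T h.t' _ (hAm.suc ξ hξ))).1 (h3 ξ hξ)⟩, rfl⟩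
    · rintro ⟨C, T, h, hR, rfl⟩
      refine ⟨⟨C, T, h, rfl⟩, ?_⟩
      rw [snd_pair]
      exact ⟨hR.r0, fun ξ hξ => (e3 ξ hξ _ (hAT T h.t' ξ hξ) _
        (hAT T h.t' _ (hAm.suc ξ hξ))).2 (hR.r1 ξ hξ), fun ξ hξ => (e4 ξ hξ _
        (hAT T h.t' ξ hξ) _ (hAT T h.t' _ (hAm.suc ξ hξ))).2 (hR.r4 ξ hξ)⟩
  refine ⟨X, Y, Z, hX, hY, hZ, hXmem, hYmem, hZmem, ?_⟩
  exact TN.mem hN (TN.resS hN (F := fun _ => X) (G := fun u => b.ut κ (u 0)) (TN.cst hX)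
    (tn_ut hN hb.nU hκ (TN.var hN 0))) (u := fun _ => κ) fun _ => hκ

end SE.UZ
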