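import Pool.Agent.H72.UZ.TarZ
import Pool.Agent.H45.UZ.TarP
import Pool.Agent.H41.UZ.TN

/-! # MP_f6fd33_lc, module Q3: the diagonal cores -/

set_option linter.unusedVariables false

open Ordinal Order Set
open scoped ZFSet

namespace SE.UZ

open SF _root_.UZ

namespace H91d

theorem ord_cases {κ ξ η : V} (hκ : IsOrd κ) (hξ : ξ ∈ κ) (hη : η ∈ κ) :
    (ξ ⊆ η ∨ η ⊆ ξ) ∧ (ξ ⊆ η ↔ ξ ∈ η ∨ ξ = η) := by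
  obtain ⟨α, rfl⟩ := hκ
  obtain ⟨a, ha, rfl⟩ := mem_toZFSet_iff.1 hξ
  obtain ⟨c, hc, rfl⟩ := mem_toZFSet_iff.1 hη
  rw [toZFSet_subset_toZFSet_iff, toZFSet_subset_toZFSet_iff, toZFSet_mem_toZFSet_iff,
    toZFSet_injective.eq_iff]
  exact ⟨le_total a c, le_iff_lt_or_eq⟩

/-- the larger one -/
theorem ord_max {κ ξ η : V} (hκ : IsOrd κ) (hξ : ξ ∈ κ) (hη : η ∈ κ) :
    ∃ μ ∈ κ, ξ ⊆ μ ∧ η ⊆ μ := by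
  rcases (ord_cases hκ hξ hη).1 with h | h
  · exact ⟨η, hη, h, fun _ h => h⟩
  · exact ⟨ξ, hξ, fun _ h => h, h⟩

theorem tn_C {N : V → Prop} (hN : ZFm N) {κ F : V} (hκ : N κ) (hF : N F) :
    N (resS κ fun ξ => tK (app F ξ) ξ) :=
  TN.mem hN (TN.resS hN (F := fun _ => κ) (G := fun u => tK (app F (u 0)) (u 0)) (TN.cst hκ)
    (TN.fst hN (TN.app hN (TN.app hN (TN.cst hF) (TN.var hN 0)) (TN.var hN 0))))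
    (u := fun _ => κ) fun _ => hκ

theorem tn_R {N : V → Prop} (hN : ZFm N) {b : BS} (hU : N b.U) {κ C : V} (hκ : N κ) (hC : N C) :
    N (resS κ fun ξ => b.u (app C ξ)) :=
  TN.mem hN (TN.resS hN (F := fun _ => κ) (G := fun u => app b.U (app C (u 0))) (TN.cst hκ)
    (TN.app hN (TN.cst hU) (TN.app hN (TN.cst hC) (TN.var hN 0))))
    (u := fun _ => κ) fun _ => hκ

/-- the face relation, evaluated at a larger generic filter -/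
theorem LWt (hPHA : T_PHA) (hBL : T_BL) {D : Cx} (hD : D.Ok) {b : BS} {σ σ1 σ2 : Ordinal.{0}}
    {C h0 B h Λ G : V} (hCB : b.u C ⊆ b.u B) (hBΛ : b.u B ⊆ Λ) (nC : D.N (b.u C))
    (nB : D.N (b.u B)) (nΛ : D.N Λ) (cC : Cld D.L (b.u C)) (cB : Cld D.L (b.u B))
    (cΛ : Cld D.L Λ) (h1 : His D (b.u C) h0 σ1) (h2 : His D (b.u B) h σ2) (hG : D.Gn Λ G)
    (hL : b.LW D σ C h0 B h) : ∀ X, RR D (b.u C) G X → ∀ y e,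
    (Ent h0 G X y e ∧ e < σ ↔ Ent h G X y e ∧ e < σ) := by
  intro X hX y e
  have trB : Tr (b.u B) := fun i hi => (cB i hi).2
  obtain ⟨-, hres⟩ := hBL D hD Λ G nΛ cΛ hG
  obtain ⟨g1, -, -, -, -, -, g2⟩ := hres (b.u B) nB hBΛ trB
  have hX' : RR D (b.u C) (gs G (b.u B)) X := by
    unfold RR
    rw [g2 _ hCB]
    exact hX
  have e1 : Ent h0 G X y e ↔ Ent h0 (gs G (b.u C)) X y e :=
    (((hPHA D hD (b.u C) Λ h0 σ1 nC cC nΛ cΛ (fun i hi => hBΛ (hCB hi)) h1).1 G hG).1 X y e).1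
  have e2 : Ent h0 (gs G (b.u B)) X y e ↔ Ent h0 (gs (gs G (b.u B)) (b.u C)) X y e :=
    (((hPHA D hD (b.u C) (b.u B) h0 σ1 nC cC nB cB hCB h1).1 _ g1).1 X y e).1
  have e3 : Ent h G X y e ↔ Ent h (gs G (b.u B)) X y e :=
    (((hPHA D hD (b.u B) Λ h σ2 nB cB nΛ cΛ hBΛ h2).1 G hG).1 X y e).1
  rw [g2 _ hCB] at e2
  rw [e1, ← e2, e3]
  exact hL.e _ g1 X hX' y e

end H91d

open H91d in
theorem pf_Q3 (hBL : T_BL) (hQRN : T_QRN) (hPWE : T_PWE) (hPHA : T_PHA) (hPLW : T_PLW)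
    (hF5 : T_F5) (hRH : T_RH) (hW0 : T_W0) (hW1 : T_W1) : T_Q3 := by
  intro D κ b hAm hb F Λ G hCh C hC
  have hD := hAm.ok
  have hN : ZFm D.N := hD.zfc.toZFCm.toZFm
  have hHN : ∀ x ∈ D.H, D.N x := fun x hx => hN.trans _ hD.hN x hx
  have hκ : D.N κ := hHN κ hAm.kH
  have hCv : ∀ ξ ∈ κ, app C ξ = tK (app F ξ) ξ := by
    intro ξ hξ
    rw [hC]
    exact app_resS hξ
  have nC : D.N C := by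
    rw [hC]
    exact tn_C hN hκ hCh.n
  obtain ⟨w1r, w1t, -, w1u, w1e⟩ := hW1 D κ b hAm hb
  -- the order for `⊆`
  have hle : ∀ ξ ∈ κ, ∀ η ∈ κ, ξ ⊆ η → b.TLe D κ (app F ξ) (app F η) := by
    intro ξ hξ η hη h
    rcases (ord_cases hAm.ord hξ hη).2.1 h with h1 | rfl
    · exact hCh.m ξ hξ η hη h1
    · exact w1r _ (hCh.t ξ hξ)
  have w0 := fun ξ (hξ : ξ ∈ κ) => hW0 D κ b hAm hb (app F ξ) (hCh.t ξ hξ)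
  have hOb : ∀ ξ ∈ κ, ∀ η ∈ κ, tK (app F ξ) η ∈ b.Ob := fun ξ hξ η hη =>
    ((w0 ξ hξ).2.2.2.1 η hη).1.o
  have hleK : ∀ ξ ∈ κ, ∀ η ∈ κ, ξ ⊆ η → ∀ ζ ∈ κ, b.Le (tK (app F ξ) ζ) (tK (app F η) ζ) :=
    fun ξ hξ η hη h ζ hζ => (w1u _ _ (hle ξ hξ η hη h)).2 ζ hζ
  have huK : ∀ ξ ∈ κ, ∀ η ∈ κ, ξ ⊆ η → ∀ ζ ∈ κ, b.u (tK (app F ξ) ζ) ⊆ b.u (tK (app F η) ζ) :=
    fun ξ hξ η hη h ζ hζ => (hb.leO _ _ (hleK ξ hξ η hη h ζ hζ)).2.2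
  have hleD : ∀ ξ ∈ κ, ∀ η ∈ κ, ξ ⊆ η → b.Le (app C ξ) (app C η) := by
    intro ξ hξ η hη h
    rw [hCv ξ hξ, hCv η hη]
    exact hb.trn _ _ _ (hleK ξ hξ η hη h ξ hξ) ((w0 η hη).2.2.2.2.1 ξ hξ η hη h).1
  have hCOb : ∀ ξ ∈ κ, app C ξ ∈ b.Ob := by
    intro ξ hξ
    rw [hCv ξ hξ]
    exact hOb ξ hξ ξ hξ
  -- the chain
  have hChC : b.Ch D κ C := by
    refine ⟨nC, hCOb, ?_, ?_⟩
    · intro ξ hξ η hη h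
      exact hleD ξ hξ η hη ((ord_cases hAm.ord hξ hη).2.2 (Or.inl h))
    · intro ξ hξ
      have hs := hAm.suc ξ hξ
      rw [hCv ξ hξ, hCv _ hs]
      have h1 : ξ ⊆ insert ξ ξ := fun x hx => ZFSet.mem_insert_iff.2 (Or.inr hx)
      exact (hb.rc _ _ ((hCh.r ξ hξ).r0 ξ hξ)).2 _ (hleK ξ hξ _ hs h1 ξ hξ)
  -- labels
  have hun : ∀ i, i ∈ b.un κ C ↔ ∃ ξ ∈ κ, i ∈ b.u (app C ξ) := by
    intro i
    unfold BS.un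
    rw [ZFSet.mem_sUnion]
    constructor
    · rintro ⟨z, hz, hi⟩
      obtain ⟨ξ, hξ, rfl⟩ := mem_imS.1 hz
      exact ⟨ξ, hξ, hi⟩
    · rintro ⟨ξ, hξ, hi⟩
      exact ⟨_, mem_imS.2 ⟨ξ, hξ, rfl⟩, hi⟩
  have hΛm : ∀ i, i ∈ Λ ↔ ∃ ξ ∈ κ, i ∈ b.ut κ (app F ξ) := by
    intro i
    rw [hCh.l, ZFSet.mem_sUnion]
    constructor
    · rintro ⟨z, hz, hi⟩
      obtain ⟨ξ, hξ, rfl⟩ := mem_imS.1 hz
      exact ⟨ξ, hξ, hi⟩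
    · rintro ⟨ξ, hξ, hi⟩
      exact ⟨_, mem_imS.2 ⟨ξ, hξ, rfl⟩, hi⟩
  have hunΛ : b.un κ C = Λ := by
    ext i
    rw [hun, hΛm]
    constructor
    · rintro ⟨ξ, hξ, hi⟩
      rw [hCv ξ hξ] at hi
      exact ⟨ξ, hξ, ((w0 ξ hξ).2.2.2.1 ξ hξ).2.2 hi⟩
    · rintro ⟨ξ, hξ, hi⟩
      obtain ⟨η, hη, hi⟩ := ((w0 ξ hξ).2.2.1 i).1 hi
      obtain ⟨μ, hμ, h1, h2⟩ := ord_max hAm.ord hξ hη
      refine ⟨μ, hμ, ?_⟩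
      rw [hCv μ hμ]
      exact huK ξ hξ μ hμ h1 μ hμ (((w0 ξ hξ).2.2.2.2.1 η hη μ hμ h2).2 hi)
  -- `Λ`
  have hRv : ∀ ξ ∈ κ, app (resS κ fun ξ => b.u (app C ξ)) ξ = b.u (app C ξ) :=
    fun ξ hξ => app_resS hξ
  have f5 := hF5 D κ hAm (resS κ fun ξ => b.u (app C ξ)) (tn_R hN hb.nU hκ nC)
    (fun ξ hξ => by rw [hRv ξ hξ]; exact ⟨(hb.cs _ (hCOb ξ hξ)).h, (hb.cs _ (hCOb ξ hξ)).c⟩)
    (fun ξ hξ η hη h => by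
      rw [hRv ξ hξ, hRv η hη]
      exact (hb.leO _ _ (hleD ξ hξ η hη ((ord_cases hAm.ord hξ hη).2.2 (Or.inl h)))).2.2)
    Λ (by
      rw [← hunΛ]
      ext i
      rw [hun, ZFSet.mem_sUnion]
      constructor
      · rintro ⟨ξ, hξ, hi⟩
        exact ⟨_, mem_imS.2 ⟨ξ, hξ, rfl⟩, by rw [hRv ξ hξ]; exact hi⟩
      · rintro ⟨z, hz, hi⟩
        obtain ⟨ξ, hξ, rfl⟩ := mem_imS.1 hz
        rw [hRv ξ hξ] at hi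
        exact ⟨ξ, hξ, hi⟩)
  obtain ⟨hΛH, hΛc, -, -, -, f5r⟩ := f5
  have nΛ := hHN Λ hΛH
  have hΛCS : CS D Λ := by
    refine ⟨hΛH, hΛc, fun i hi => ?_⟩
    rw [← hunΛ] at hi
    obtain ⟨ξ, hξ, hi⟩ := (hun i).1 hi
    exact (hb.cs _ (hCOb ξ hξ)).g i hi
  have hutΛ : ∀ ξ ∈ κ, b.ut κ (app F ξ) ⊆ Λ := fun ξ hξ i hi => (hΛm i).2 ⟨ξ, hξ, hi⟩
  have nut : ∀ ξ ∈ κ, D.N (b.ut κ (app F ξ)) := fun ξ hξ => hHN _ (w0 ξ hξ).1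
  have hKΛ : ∀ ξ ∈ κ, ∀ η ∈ κ, b.u (tK (app F ξ) η) ⊆ Λ := fun ξ hξ η hη i hi =>
    hutΛ ξ hξ (((w0 ξ hξ).2.2.2.1 η hη).2.2 hi)
  have csK : ∀ ξ ∈ κ, ∀ η ∈ κ, CS D (b.u (tK (app F ξ) η)) := fun ξ hξ η hη =>
    hb.cs _ (hOb ξ hξ η hη)
  have hmono : ∀ s s', CS D s → CS D s' → s ⊆ s' → s' ⊆ Λ → ∀ x, RR D s G x → RR D s' G x := by
    intro s s' cs cs' h h' x hx
    have q := hQRN D hD Λ G s nΛ hΛc hCh.g (hHN _ cs.h) (fun i hi => h' (h hi))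
      (fun i hi => (cs.c i hi).2)
    exact q.2.2.2.2.2.2.2.1 s' (hHN _ cs'.h) h h' (fun i hi => (cs'.c i hi).2) x hx
  have hHis : ∀ ξ ∈ κ, ∀ η ∈ κ, His D (b.u (tK (app F ξ) η)) (tH (app F ξ) η) (b.rho D η) :=
    fun ξ hξ η hη => ((hPWE b D _ _ _).1 ((w0 ξ hξ).2.2.2.1 η hη).2.1).wo.hs
  -- the face relation
  have hLWm : ∀ ξ ∈ κ, ∀ η ∈ κ, ξ ⊆ η →
      b.LW D (b.rho D ξ) (tK (app F ξ) ξ) (tH (app F ξ) ξ) (tK (app F η) ξ) (tH (app F η) ξ) :=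
    fun ξ hξ η hη h => (hle ξ hξ η hη h).le ξ hξ
  obtain ⟨-, pt, pm, -, -⟩ := hPLW D κ hAm b hb
  have hLWD : ∀ ξ ∈ κ, ∀ η ∈ κ, ξ ⊆ η →
      b.LW D (b.rho D ξ) (app C ξ) (tH (app F ξ) ξ) (app C η) (tH (app F η) η) := by
    intro ξ hξ η hη h
    rw [hCv ξ hξ, hCv η hη]
    rcases (ord_cases hAm.ord hξ hη).2.1 h with h1 | rfl
    · exact pt _ _ _ _ _ _ _ _ _ (hOb ξ hξ ξ hξ) (hHis ξ hξ ξ hξ) (hHis η hη ξ hξ)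
        (hLWm ξ hξ η hη h) ((hCh.t η hη).t0 ξ hξ η hη h1)
    · exact hLWm ξ hξ ξ hξ h
  have wE := fun ξ (hξ : ξ ∈ κ) => (w0 ξ hξ).2.2.2.2.2 Λ nΛ hΛc (hutΛ ξ hξ) G hCh.g
  -- entries
  have hmoveT : ∀ ξ ∈ κ, ∀ η ∈ κ, ∀ X y e, Ent (tH (app F ξ) η) G X y e →
      ∀ μ ∈ κ, ξ ⊆ μ → η ⊆ μ → Ent (tH (app F μ) μ) G X y e := by
    intro ξ hξ η hη X y e he μ hμ h1 h2
    obtain ⟨-, e2, e3, -, -, -⟩ := wE ξ hξ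
    obtain ⟨k1, k2, k3⟩ := ((e2 η hη μ hμ h2).2 X y e).1 he
    have k4 := (e3 μ hμ X y e k2)
    have hL : b.LW D (b.rho D μ) (tK (app F ξ) μ) (tH (app F ξ) μ) (tK (app F μ) μ)
        (tH (app F μ) μ) := (hle ξ hξ μ hμ h1).le μ hμ
    have c1 := csK ξ hξ μ hμ
    have c2 := csK μ hμ μ hμ
    have h5 := LWt hPHA hBL hD (huK ξ hξ μ hμ h1 μ hμ) (hKΛ μ hμ μ hμ) (hHN _ c1.h) (hHN _ c2.h)
      nΛ c1.c c2.c hΛc (hHis ξ hξ μ hμ) (hHis μ hμ μ hμ) hCh.g hL X k4.1 y e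
    exact (h5.1 ⟨k2, k4.2.2⟩).1
  have hEnu : ∀ X y, Enu κ F G X y ↔ ∃ ξ ∈ κ, ∃ e, Ent (tH (app F ξ) ξ) G X y e := by
    intro X y
    constructor
    · rintro ⟨ξ, hξ, η, hη, e, he⟩
      obtain ⟨μ, hμ, h1, h2⟩ := ord_max hAm.ord hξ hη
      exact ⟨μ, hμ, e, hmoveT ξ hξ η hη X y e he μ hμ h1 h2⟩
    · rintro ⟨ξ, hξ, e, he⟩
      exact ⟨ξ, hξ, ξ, hξ, e, he⟩
  refine ⟨hChC, hunΛ, hΛH, hΛCS, ?_, ?_, ?_, hEnu, ?_, ?_, ?_⟩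
  · intro x hx hr
    obtain ⟨ξ, hξ, h⟩ := f5r G hCh.g x hx hr
    rw [hRv ξ hξ] at h
    exact ⟨ξ, hξ, h⟩
  · intro ξ hξ η hη h
    refine ⟨?_, hLWD ξ hξ η hη h⟩
    refine hmono _ _ (hb.cs _ (hCOb ξ hξ)) (hb.cs _ (hCOb η hη)) (hb.leO _ _ (hleD ξ hξ η hη h)).2.2 ?_
    rw [hCv η hη]
    exact hKΛ η hη η hη
  · intro ξ hξ
    rw [hCv ξ hξ]
    exact ((w0 ξ hξ).2.2.2.1 ξ hξ).2.1
  · intro X y y' h h'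
    obtain ⟨ξ, hξ, e, he⟩ := (hEnu X y).1 h
    obtain ⟨ξ', hξ', e', he'⟩ := (hEnu X y').1 h'
    obtain ⟨μ, hμ, h1, h2⟩ := ord_max hAm.ord hξ hξ'
    obtain ⟨-, -, -, e4, -, -⟩ := wE μ hμ
    exact e4 X y y' ⟨μ, hμ, e, hmoveT ξ hξ ξ hξ X y e he μ hμ h1 h1⟩
      ⟨μ, hμ, e', hmoveT ξ' hξ' ξ' hξ' X y' e' he' μ hμ h2 h2⟩
  · intro ξ hξ X hX
    obtain ⟨e1, -, e3, -, e5, -⟩ := wE ξ hξ
    rw [e5]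
    constructor
    · rintro ⟨y, η, hη, h⟩
      refine ⟨y, ?_⟩
      rcases (ord_cases hAm.ord hξ hη).1 with h1 | h1
      · exact ((w1e _ _ (hle ξ hξ η hη h1) Λ nΛ hΛc (hutΛ η hη) G hCh.g X hX).2 y).2 h
      · have hX' : RR D (b.ut κ (app F η)) G X := by
          obtain ⟨ζ, hζ, e, he⟩ := h
          obtain ⟨a1, -, a3, -, -, -⟩ := wE η hη
          exact (a1 X).2 ⟨ζ, hζ, (a3 ζ hζ X y e he).1⟩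
        exact ((w1e _ _ (hle η hη ξ hξ h1) Λ nΛ hΛc (hutΛ ξ hξ) G hCh.g X hX').2 y).1 h
    · rintro ⟨y, h⟩
      exact ⟨y, ξ, hξ, h⟩
  · intro ξ hξ p hp X y hX hy
    have hs := hAm.suc ξ hξ
    have h1 : ξ ⊆ insert ξ ξ := fun x hx => ZFSet.mem_insert_iff.2 (Or.inr hx)
    have hfp : fst p = tK (app F (insert ξ ξ)) ξ := by rw [hp]; rfl
    rw [hfp]
    rw [hCv ξ hξ] at hX hy
    exact ⟨hmono _ _ (csK ξ hξ ξ hξ) (csK _ hs ξ hξ) (huK ξ hξ _ hs h1 ξ hξ) (hKΛ _ hs ξ hξ) X hX,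
      hmono _ _ (csK ξ hξ ξ hξ) (csK _ hs ξ hξ) (huK ξ hξ _ hs h1 ξ hξ) (hKΛ _ hs ξ hξ) y hy⟩

end SE.UZ
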