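import Pool.Agent.H45.UZ.TarA

/-! # MP_f6fd33_lc, module QC1: copies of objects over a face (families) -/

set_option linter.unusedVariables false

open Ordinal Order Set
open scoped ZFSet

namespace SE.UZ

open SF

namespace H91b

theorem tm_R : Tm ZFm (fun _ v => resS (v 0) fun w => app (v 1) (app (v 2) w)) :=
  Tm.resS (f := fun _ v => v 0) (g := fun _ v => app (v 2) (app (v 3) (v 0))) (Tm.var 0)
    (Tm.app (Tm.var 2) (Tm.app (Tm.var 3) (Tm.var 0)))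

theorem tm_E : Tm ZFm (fun _ v => resS (v 0) fun w =>
    app (v 1) (ZFSet.pair (app (v 2) w) (app (v 3) w))) :=
  Tm.resS (f := fun _ v => v 0) (g := fun _ v => app (v 2) (ZFSet.pair (app (v 3) (v 0))
    (app (v 4) (v 0)))) (Tm.var 0)
    (Tm.app (Tm.var 2) (Tm.pair (Tm.app (Tm.var 3) (Tm.var 0)) (Tm.app (Tm.var 4) (Tm.var 0))))

end H91b

open H91b in
theorem pf_QC1 (hQCF : T_QCF) (hQI1 : T_QI1) : T_QC1 := by
  intro D κ hA b hb C Z I E ζ hC hZ hI hE hCE hζ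
  have hD := hA.ok
  have kN : ZFm D.N := hD.zfc.toZFCm.toZFm
  have hHN : ∀ x ∈ D.H, D.N x := fun x hx => kN.trans _ hD.hN x hx
  have hSl : Sl b.l b.S := fun e he => ⟨(hb.sl e he).1, by have := (hb.sl e he).2; omega⟩
  have hVw : ∀ B ∈ b.Ob, Vws b.S (b.u B) := fun B hB i hi e he hk => hb.rk B hB i hi e he hk
  have hOb : ∀ v ∈ I, app E v ∈ b.Ob := fun v hv => (hb.leO _ _ (hCE v hv)).2.1
  let R : V := resS I fun w => app b.U (app E w)
  have hNR : D.N R := tm_R.1 D.N kN (cons I (cons b.U fun _ => E))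
    (In.cons (In.cons (fun _ => hE) hb.nU) (hHN _ hI))
  have hRv : ∀ v ∈ I, app R v = b.u (app E v) := fun v hv => app_resS hv
  have hRv2 : ∀ v ∈ I, CS D (app R v) ∧ b.u C ⊆ app R v ∧ Vws b.S (app R v) := by
    intro v hv
    rw [hRv v hv]
    exact ⟨hb.cs _ (hOb v hv), (hb.leO _ _ (hCE v hv)).2.2, hVw _ (hOb v hv)⟩
  obtain ⟨P, hP⟩ := hQCF D hD b.l b.S ζ (b.u C) Z I R hb.l3 hSl (hb.cs C hC) (hVw C hC) hZ hI hNR
    hRv2 hζ
  let E' : V := resS I fun w => app b.tr (ZFSet.pair (app P w) (app E w))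
  have hNE' : D.N E' := tm_E.1 D.N kN (cons I (cons b.tr (cons P fun _ => E)))
    (In.cons (In.cons (In.cons (fun _ => hE) hP.n) hb.nT) (hHN _ hI))
  have hE'v : ∀ v ∈ I, app E' v = b.T (app P v) (app E v) := fun v hv => app_resS hv
  refine ⟨R, P, E', hNR, hNE', hRv, hP, fun v hv => ?_⟩
  have hi : Isl D b.l b.S (app P v) (b.u (app E v)) (im (app P v) (b.u (app E v))) := by
    have := hP.i v hv
    rwa [hRv v hv] at this
  obtain ⟨t1, t2, t3, t4⟩ := hb.tr (app E v) (hOb v hv) _ _ hi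
  rw [hE'v v hv]
  refine ⟨rfl, ?_, t1, t2⟩
  have h5 := t4 C (hCE v hv)
  obtain ⟨-, -, -, -, q5⟩ := hQI1 D hD b.l b.S _ _ _ hSl hi
  have hcC := hb.cs C hC
  obtain ⟨-, -, -, -, -, q6⟩ := q5 (b.u C) (hHN _ hcC.h) (hb.leO _ _ (hCE v hv)).2.2
    (fun i hi => (hcC.c i hi).2) (hVw C hC)
  rw [(q6 (hP.d v hv)).1, hb.trI C hC] at h5
  exact h5

end SE.UZ
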