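import Pool.Agent.H45.UZ.TarA

/-! # MP_f6fd33_lc, module QCF: families of disjoint copies -/

set_option linter.unusedVariables false

open Ordinal Order Set
open scoped ZFSet

namespace SE.UZ

open SF

namespace H91a

theorem tm_idm : Tm ZFm (fun _ v => idm (v 0)) :=
  Tm.resS (f := fun _ v => v 0) (g := fun _ v => v 0) (Tm.var 0) (Tm.var 0)

/-- the family of the copies is a definable function -/
theorem tm_fam {l : ℕ}
    (h : Tm ZFm (fun _ v => cqm l (v 0) (v 1) (v 2) (v 3) (v 4) (v 5))) :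
    Tm ZFm (fun _ v => resS (v 0) fun w =>
      cqm l (v 1) (ZFSet.pair (v 2) w) (v 3) (v 4) (v 5) (app (v 6) w)) := by
  have h1 : Tm ZFm (fun _ v => cqm l (v 2) (ZFSet.pair (v 3) (v 0)) (v 4) (v 5) (v 6)
      (app (v 7) (v 0))) := by
    refine h.comp (args [fun _ v => v 2, fun _ v => ZFSet.pair (v 3) (v 0), fun _ v => v 4,
      fun _ v => v 5, fun _ v => v 6, fun _ v => app (v 7) (v 0)]) (tm_args _ ?_)
    intro a ha
    simp only [List.mem_cons, List.not_mem_nil, or_false] at ha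
    rcases ha with rfl | rfl | rfl | rfl | rfl | rfl
    · exact Tm.var 2
    · exact Tm.pair (Tm.var 3) (Tm.var 0)
    · exact Tm.var 4
    · exact Tm.var 5
    · exact Tm.var 6
    · exact Tm.app (Tm.var 7) (Tm.var 0)
  exact Tm.resS (f := fun _ v => v 0) (g := fun _ v => cqm l (v 2) (ZFSet.pair (v 3) (v 0)) (v 4)
    (v 5) (v 6) (app (v 7) (v 0))) (Tm.var 0) h1

end H91a

open H91a in
theorem pf_QCF (hQI1i : T_QI1i) (hQI4 : T_QI4) (hQI4d : T_QI4d) (hQTG : T_QTG) (hBR : T_BR) :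
    T_QCF := by
  intro D hD l S ζ ρ0 Z I R hl hS hc0 hv0 hZ hI hR hRv hζ
  have kN : ZFm D.N := hD.zfc.toZFCm.toZFm
  have hHN : ∀ x ∈ D.H, D.N x := fun x hx => kN.trans _ hD.hN x hx
  obtain ⟨-, -, -, r4, -⟩ := hBR D hD
  obtain ⟨g, hg, hg2⟩ := hQTG D hD (ρ0 ∪ Z) (r4 ρ0 hc0.h Z hZ).2.1
  obtain ⟨-, -, -, -, -, -, -, -, hcq, -⟩ := hQI4d
  have hNζ : D.N ζ := by
    rcases hζ with h | h
    · exact hHN _ h
    · rw [h]; exact hD.hN
  have hNid : D.N (idm ρ0) := tm_idm.1 D.N kN (fun _ => ρ0) fun _ => hHN _ hc0.h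
  let P : V := resS I fun w => cqm l D.L (ZFSet.pair g w) ζ (idm ρ0) ρ0 (app R w)
  have hNP : D.N P :=
    (tm_fam (hcq l).2).1 D.N kN
      (cons I (cons D.L (cons g (cons ζ (cons (idm ρ0) (cons ρ0 fun _ => R))))))
      (In.cons (In.cons (In.cons (In.cons (In.cons (In.cons (fun _ => hR) (hHN _ hc0.h)) hNid)
        hNζ) (hHN _ hg)) (hHN _ hD.lH)) (hHN _ hI))
  have hPv : ∀ v ∈ I, app P v = cqm l D.L (ZFSet.pair g v) ζ (idm ρ0) ρ0 (app R v) :=
    fun v hv => app_resS hv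
  have key := fun v (hv : v ∈ I) => hQI4 D hD l S (idm ρ0) ρ0 ρ0 (app R v) (ZFSet.pair g v) ζ hl hS
    (hQI1i D hD l S ρ0 hS hc0 hv0).1 (hRv v hv).1 (hRv v hv).2.1 (hRv v hv).2.2
    (r4 g hg v (hD.zfH.trans I hI v hv)).1
    (fun j hj x => hg2 v x j (ZFSet.mem_union.2 (Or.inl hj))) hζ (app P v)
    (im (app P v) (app R v)) (hPv v hv) rfl
  have hid : ∀ v ∈ I, Idn (app P v) ρ0 := by
    intro v hv i hi
    rw [(key v hv).2.2.2.1 i hi]
    exact app_resS hi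
  refine ⟨P, hNP, fun v hv => (key v hv).1, hid, ?_, ?_, ?_⟩
  · intro v hv i hi hi0
    obtain ⟨-, -, -, -, -, k6⟩ := key v hv
    obtain ⟨a1, a2, -⟩ := k6 i hi hi0
    refine ⟨a1, fun hz => ?_⟩
    exact hg2 v i _ (ZFSet.mem_union.2 (Or.inr hz)) a2
  · intro v hv i hi hi0
    obtain ⟨-, -, -, -, -, k6⟩ := key v hv
    obtain ⟨a1, a2, a3, a4, a5⟩ := k6 i hi hi0
    exact ⟨a3, a4, a5⟩
  · intro v hv v' hv' hne i hi hi'
    unfold im at hi hi'
    obtain ⟨a, ha, rfl⟩ := mem_imS.1 hi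
    obtain ⟨a', ha', he⟩ := mem_imS.1 hi'
    by_cases h0 : a ∈ ρ0
    · rw [hid v hv a h0]
      exact h0
    by_cases h0' : a' ∈ ρ0
    · rw [← he, hid v' hv' a' h0']
      exact h0'
    exfalso
    obtain ⟨-, -, -, -, -, k6⟩ := key v hv
    obtain ⟨-, a2, -⟩ := k6 a ha h0
    obtain ⟨-, -, -, -, -, k6'⟩ := key v' hv'
    obtain ⟨-, a2', -⟩ := k6' a' ha' h0'
    rw [he, a2] at a2'
    exact hne (ZFSet.pair_inj.1 (ZFSet.pair_inj.1 a2').1).2

end SE.UZ
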